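import Pool.Agent.Helper38.TH.GoalsA

/-!
# Project TH, packet T_BADW: the indicator of `Bad` is a weight
-/

set_option autoImplicit false

open Finset Pool.Agent.Helper17.PP Pool.Agent.Helper38.TH

namespace Pool.Agent.Helper46.TH

variable {p : ℕ} {B B₀ k U Λ C : Type} [Field k] [Algebra (ZMod p) k] [AddCommGroup U] [Module k U]
    [AddCommGroup Λ] [Module k Λ] [AddCommGroup C]

open Classical in
theorem sol_of (S S' : Sys p B B₀ k U Λ C) (V : B → Prop) (hk : S'.kap = S.kap)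
    (hV : ∀ q, S'.spl q → V q) {b b' : Finset B} (h1 : b.filter V = b'.filter V)
    (h2 : ∀ q' ∈ b.filter V,
      ∑ q ∈ b with ¬ V q, S.kap q' q = ∑ q ∈ b' with ¬ V q, S.kap q' q)
    {x : U} {c : B → k} (h : S'.IsSol b x c) : S'.IsSol b' x c := by
  have hc : ∀ q, c q ≠ 0 → V q := fun q hq => hV q (h.supp q hq).2
  have hmem : ∀ q, V q → (q ∈ b ↔ q ∈ b') := fun q hq => by
    have := congrArg (fun s => q ∈ s) h1
    simp only [mem_filter, hq, and_true, eq_iff_iff] at this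
    exact this
  have he : ∀ q, (b.erase q).filter V = (b'.erase q).filter V := fun q => by
    ext z
    simp only [mem_filter, mem_erase]
    constructor
    · rintro ⟨⟨k1, k2⟩, k3⟩
      exact ⟨⟨k1, (hmem z k3).1 k2⟩, k3⟩
    · rintro ⟨⟨k1, k2⟩, k3⟩
      exact ⟨⟨k1, (hmem z k3).2 k2⟩, k3⟩
  have hn : ∀ q (b₁ : Finset B), V q → (b₁.erase q).filter (fun z => ¬ V z) =
      b₁.filter (fun z => ¬ V z) := fun q b₁ hq => by
    ext z
    simp only [mem_filter, mem_erase]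
    constructor
    · rintro ⟨⟨k1, k2⟩, k3⟩
      exact ⟨k2, k3⟩
    · rintro ⟨k2, k3⟩
      exact ⟨⟨fun e => k3 (e ▸ hq), k2⟩, k3⟩
  refine ⟨fun q hq => ⟨(hmem q (hc q hq)).1 (h.supp q hq).1, (h.supp q hq).2⟩, ?_, ?_⟩
  · have e : ∀ b₁ : Finset B, ∑ q ∈ b₁, S'.lam q (c q) = ∑ q ∈ b₁.filter V, S'.lam q (c q) := by
      intro b₁
      refine (Finset.sum_filter_of_ne fun q _ hq => hc q fun h0 => hq ?_).symm
      rw [h0, map_zero]
    rw [e, ← h1, ← e]
    exact h.lam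
  · intro q hq hs
    have hVq := hV q hs
    have h3 := h.loc q ((hmem q hVq).2 hq) hs
    rw [← h3]
    unfold Sys.R
    have e1 : ∀ b₁ : Finset B, ∑ q' ∈ b₁, c q' * S'.a q q' =
        ∑ q' ∈ b₁.filter V, c q' * S'.a q q' := by
      intro b₁
      refine (Finset.sum_filter_of_ne fun q' _ hq' => hc q' fun h0 => hq' ?_).symm
      rw [h0, zero_mul]
    have e2 : ∑ q' ∈ b'.erase q, algebraMap (ZMod p) k (S'.kap q q') =
        ∑ q' ∈ b.erase q, algebraMap (ZMod p) k (S'.kap q q') := by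
      rw [← map_sum, ← map_sum]
      congr 1
      rw [← Finset.sum_filter_add_sum_filter_not (b'.erase q) V,
        ← Finset.sum_filter_add_sum_filter_not (b.erase q) V, he q, hn q b hVq, hn q b' hVq, hk,
        h2 q (mem_filter.2 ⟨(hmem q hVq).2 hq, hVq⟩)]
    rw [e1 (b'.erase q), e1 (b.erase q), he q, e2]

open Classical in
theorem t_badw : T_BADW := by
  intro p B B₀ k U Λ C _ _ _ _ _ _ _ S S' V
  refine ⟨fun hk hV => ⟨fun b => ?_, fun b => ?_, fun b b' h1 h2 => ?_⟩, fun G G' hG hG' => ?_,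
    fun v h0 h1 => ?_⟩
  · show (0 : ℝ) ≤ if S'.Bad b then 1 else 0
    split_ifs <;> norm_num
  · show (if S'.Bad b then (1 : ℝ) else 0) ≤ 1
    split_ifs <;> norm_num
  · have hiff : S'.Bad b ↔ S'.Bad b' := by
      constructor
      · rintro ⟨x, c, h, h'⟩
        exact ⟨x, c, sol_of S S' V hk hV h1 h2 h, h'⟩
      · rintro ⟨x, c, h, h'⟩
        refine ⟨x, c, sol_of S S' V hk hV h1.symm (fun q' hq' => ?_) h, h'⟩
        rw [← h1] at hq'
        exact (h2 q' hq').symm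
    show (if S'.Bad b then (1 : ℝ) else 0) = if S'.Bad b' then 1 else 0
    by_cases hb : S'.Bad b
    · rw [if_pos hb, if_pos (hiff.1 hb)]
    · rw [if_neg hb, if_neg fun h => hb (hiff.2 h)]
  · refine ⟨fun b => mul_nonneg (hG.nonneg b) (hG'.nonneg b),
      fun b => mul_le_one₀ (hG.le_one b) (hG'.nonneg b) (hG'.le_one b), fun b b' h1 h2 => ?_⟩
    rw [hG.dep b b' h1 h2, hG'.dep b b' h1 h2]
  · exact ⟨fun _ => h0, fun _ => h1, fun _ _ _ _ => rfl⟩

end Pool.Agent.Helper46.TH
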