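import Pool.Agent.Helper11.M3.Defs
import Pool.Agent.Helper9.ND.NANA
import Pool.Agent.Helper17.PP.DefsC

/-!
# Project TH, packet T_EX2: the `b` with fewer than `r` large primes of `W`
-/

set_option autoImplicit false

open Finset Pool.Agent.Helper17.PP
open Pool.Agent.Helper11.M3 (HypW)
open Pool.Agent.Helper9.ND (fin_fam ncard_fam sub_upto)

namespace Pool.Agent.Helper46.TH

section

variable {p : ℕ} {B B₀ k U Λ C : Type} [Field k] [Fintype k] [Algebra (ZMod p) k]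
    [AddCommGroup U] [Module k U] [AddCommGroup Λ] [Module k Λ]
    [AddCommGroup C] {S : Sys p B B₀ k U Λ C} {ψ : AddChar k ℂ} {g : ℝ → ℝ} {K : ℕ}

open Classical in
/-- counting with the multiplicative weight -/
theorem count_le (hS : HypW S ψ g K) (R : Finset B → Prop) (c : B → Prop) [DecidablePred c] (r : ℕ) {X : ℝ}
    (hX : 1 ≤ X) (hR : ∀ b, (S.nm b : ℝ) ≤ X → R b → (b.filter c).card < r) :
    ({b : Finset B | R b ∧ (S.nm b : ℝ) ≤ X}.ncard : ℝ) ≤
      Real.exp 1 * (Fintype.card k : ℝ) ^ r * (K * (X * g X) *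
        Real.exp (-((1 - 1 / (Fintype.card k : ℝ)) *
          ∑ q ∈ (S.upto X).filter c, (1 : ℝ) / S.N q))) := by
  have hX0 : 0 < X := by linarith
  obtain ⟨Q, hQ⟩ : ∃ Q : ℝ, Q = Fintype.card k := ⟨_, rfl⟩
  have hQ1 : 1 ≤ Q := by rw [hQ]; exact_mod_cast Fintype.card_pos
  rw [← hQ]
  have hQ0 : 0 < Q := by linarith
  have hQi : 1 / Q ≤ 1 := by rw [div_le_one hQ0]; exact hQ1
  have hQi0 : 0 ≤ 1 / Q := by positivity
  rw [ncard_fam S X R _ (Finset.Subset.refl _)]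
  have h1 := hS.ht (fun q ↦ if c q then 1 / Q else 1) (fun q ↦ by
    have : (0 : ℝ) ≤ Fintype.card k := Nat.cast_nonneg _
    split_ifs
    · exact ⟨hQi0, by linarith⟩
    · exact ⟨zero_le_one, by linarith⟩) X hX0 (S.upto X)
  have h2 : ((((S.upto X).powerset.filter fun b ↦ R b ∧ (S.nm b : ℝ) ≤ X).card : ℕ) : ℝ) *
      ((1 / Q) ^ r * Real.exp (-1)) ≤ ∑ b ∈ (S.upto X).powerset,
        (∏ q ∈ b, (if c q then 1 / Q else 1)) * Real.exp (-(S.nm b / X)) := by
    have hnn : ∀ b : Finset B, 0 ≤ ∏ q ∈ b, (if c q then 1 / Q else (1 : ℝ)) := fun b =>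
      Finset.prod_nonneg fun q _ => by split_ifs <;> positivity
    refine le_trans ?_ (Finset.sum_le_sum_of_subset_of_nonneg (Finset.filter_subset
      (fun b ↦ R b ∧ (S.nm b : ℝ) ≤ X) _) (fun b _ _ ↦ mul_nonneg (hnn b) (Real.exp_pos _).le))
    rw [← nsmul_eq_mul]
    refine Finset.card_nsmul_le_sum _ _ _ ?_
    intro b hb
    have hb2 := (Finset.mem_filter.mp hb).2
    have e1 : ∏ q ∈ b, (if c q then 1 / Q else (1 : ℝ)) = (1 / Q) ^ (b.filter c).card := by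
      rw [← Finset.prod_filter, Finset.prod_const]
    rw [e1]
    refine mul_le_mul (pow_le_pow_of_le_one hQi0 hQi (hR b hb2.2 hb2.1).le) ?_
      (Real.exp_pos _).le (by positivity)
    refine Real.exp_le_exp.mpr ?_
    rw [neg_le_neg_iff, div_le_one hX0]
    exact hb2.2
  have h3 : ∑ q ∈ S.upto X, ((if c q then 1 / Q else (1 : ℝ)) - 1) / S.N q =
      -((1 - 1 / Q) * ∑ q ∈ (S.upto X).filter c, (1 : ℝ) / S.N q) := by
    rw [Finset.mul_sum, ← Finset.sum_neg_distrib, Finset.sum_filter]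
    refine Finset.sum_congr rfl fun q _ => ?_
    split_ifs
    · ring
    · simp
  rw [h3, min_eq_left hX, mul_one] at h1
  have h4 := h2.trans h1
  have h5 : Real.exp 1 * Real.exp (-1) = 1 := by
    rw [← Real.exp_add]; simp
  have h6 : Q ^ r * (1 / Q) ^ r = 1 := by
    rw [← mul_pow, mul_one_div_cancel hQ0.ne', one_pow]
  calc ((((S.upto X).powerset.filter fun b ↦ R b ∧ (S.nm b : ℝ) ≤ X).card : ℕ) : ℝ)
      = Real.exp 1 * Q ^ r * (((((S.upto X).powerset.filter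
          fun b ↦ R b ∧ (S.nm b : ℝ) ≤ X).card : ℕ) : ℝ) * ((1 / Q) ^ r * Real.exp (-1))) := by
        have : Real.exp 1 * Q ^ r * (((((S.upto X).powerset.filter
          fun b ↦ R b ∧ (S.nm b : ℝ) ≤ X).card : ℕ) : ℝ) * ((1 / Q) ^ r * Real.exp (-1))) =
          (Real.exp 1 * Real.exp (-1)) * (Q ^ r * (1 / Q) ^ r) * ((((S.upto X).powerset.filter
          fun b ↦ R b ∧ (S.nm b : ℝ) ≤ X).card : ℕ) : ℝ) := by ring
        rw [this, h5, h6]; ring
    _ ≤ _ := mul_le_mul_of_nonneg_left h4 (by positivity)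

end

open Classical in
theorem t_ex2_core :
  ∀ (p : ℕ) [Fact p.Prime] (B B₀ k U Λ C : Type) [Field k] [Fintype k] [Algebra (ZMod p) k]
    [AddCommGroup U] [Module k U] [AddCommGroup Λ] [Module k Λ]
    [AddCommGroup C] (S : Sys p B B₀ k U Λ C) (ψ : AddChar k ℂ) (g : ℝ → ℝ) (K : ℕ),
    HypW S ψ g K →
  ∀ (W : B → Prop) (κ K₀ : ℝ), 0 < κ → 0 ≤ K₀ →
    (∀ m n : ℕ, 1 ≤ m → m ≤ n → κ * Real.log (n / m) - K₀ ≤
      ∑ q ∈ S.below n with W q ∧ m ≤ S.bl q, (1 : ℝ) / S.N q) →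
  ∀ (F Tb r : ℕ), 1 ≤ F → 1 ≤ Tb → ∃ X₀ : ℝ, ∀ X : ℝ, X₀ ≤ X →
    ({b : Finset B | (S.nm b : ℝ) ≤ X ∧
      (b.filter fun q ↦ W q ∧ Nat.log 2 (F * S.nm b) ≤ Tb * S.bl q).card < r}.ncard : ℝ) ≤
      3 * K * (Fintype.card k : ℝ) ^ r * Real.exp K₀ * (4 / (Tb : ℝ)) ^ (κ / 2) * (X * g X) := by
  intro p _ B B₀ k U Λ C _ _ _ _ _ _ _ _ S ψ g K hS W κ K₀ hκ hK₀ hmer F Tb r hF hTb
  refine ⟨(2 : ℝ) ^ (Tb + Nat.log 2 F + 10), fun X hX => ?_⟩
  obtain ⟨L, hL⟩ : ∃ L, L = lg X := ⟨_, rfl⟩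
  have hXp : (1 : ℝ) ≤ X := le_trans (one_le_pow₀ (by norm_num)) hX
  have hX0 : 0 < X := by linarith
  have hfl : ⌊X⌋₊ ≠ 0 := by
    rw [Ne, Nat.floor_eq_zero, not_lt]; exact hXp
  have hL1 : Tb + Nat.log 2 F + 10 ≤ L := by
    rw [hL]
    unfold lg
    refine Nat.le_log_of_pow_le (by norm_num) ?_
    refine Nat.le_floor ?_
    push_cast
    exact hX
  have hL2 : 2 ^ L ≤ ⌊X⌋₊ := by
    rw [hL]; exact Nat.pow_log_le_self 2 hfl
  have hL3 : ⌊X⌋₊ < 2 ^ (L + 1) := by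
    rw [hL]; exact Nat.lt_pow_succ_log_self (by norm_num) _
  have hcond : ∀ b : Finset B, (S.nm b : ℝ) ≤ X → Nat.log 2 (F * S.nm b) ≤ 2 * L := by
    intro b hb
    have h1 : S.nm b < 2 ^ (L + 1) := lt_of_le_of_lt (Nat.le_floor hb) hL3
    have h2 : F < 2 ^ (Nat.log 2 F + 1) := Nat.lt_pow_succ_log_self (by norm_num) _
    have h3 : F * S.nm b < 2 ^ (2 * L) := by
      calc F * S.nm b < 2 ^ (Nat.log 2 F + 1) * 2 ^ (L + 1) :=
            Nat.mul_lt_mul'' h2 h1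
        _ = 2 ^ (Nat.log 2 F + 1 + (L + 1)) := by rw [← pow_add]
        _ ≤ 2 ^ (2 * L) := Nat.pow_le_pow_right (by norm_num) (by omega)
    exact (Nat.log_lt_of_lt_pow' (by omega) h3).le
  have hset : {b : Finset B | (S.nm b : ℝ) ≤ X ∧
      (b.filter fun q ↦ W q ∧ Nat.log 2 (F * S.nm b) ≤ Tb * S.bl q).card < r} =
      {b : Finset B | (b.filter fun q ↦ W q ∧ Nat.log 2 (F * S.nm b) ≤ Tb * S.bl q).card < r ∧
        (S.nm b : ℝ) ≤ X} := by
    ext b
    exact and_comm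
  have hcount := count_le hS
    (fun b => (b.filter fun q ↦ W q ∧ Nat.log 2 (F * S.nm b) ≤ Tb * S.bl q).card < r)
    (fun q => W q ∧ 2 * L ≤ Tb * S.bl q) r hXp (by
      intro b hb hb'
      refine lt_of_le_of_lt (Finset.card_le_card ?_) hb'
      intro q hq
      rw [Finset.mem_filter] at hq ⊢
      exact ⟨hq.1, hq.2.1, (hcond b hb).trans hq.2.2⟩)
  rw [← hset] at hcount
  obtain ⟨Q, hQ⟩ : ∃ Q : ℝ, Q = Fintype.card k := ⟨_, rfl⟩
  have hQ2 : 2 ≤ Q := by
    rw [hQ]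
    have : 1 < Fintype.card k := Fintype.one_lt_card
    exact_mod_cast this
  obtain ⟨Sg, hSg⟩ : ∃ s : ℝ, s = ∑ q ∈ (S.upto X).filter (fun q => W q ∧ 2 * L ≤ Tb * S.bl q),
    (1 : ℝ) / S.N q := ⟨_, rfl⟩
  rw [← hQ, ← hSg] at hcount
  have hSg0 : 0 ≤ Sg := by
    rw [hSg]; exact Finset.sum_nonneg fun q _ => by positivity
  have hTb0 : (0 : ℝ) < Tb := by exact_mod_cast hTb
  have hQinv : 1 / Q ≤ 1 / 2 := one_div_le_one_div_of_le (by norm_num) hQ2
  have hexp : Real.exp (-((1 - 1 / Q) * Sg)) ≤ Real.exp K₀ * (4 / (Tb : ℝ)) ^ (κ / 2) := by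
    rcases Nat.lt_or_ge 4 Tb with h4 | h4
    · -- `Tb ≥ 5`
      obtain ⟨m, hm⟩ : ∃ m, m = (2 * L + Tb - 1) / Tb := ⟨_, rfl⟩
      have hm1 : 2 * L ≤ Tb * m := by
        rw [hm]
        have := Nat.div_add_mod (2 * L + Tb - 1) Tb
        have := Nat.mod_lt (2 * L + Tb - 1) (show 0 < Tb by omega)
        omega
      have hm2 : Tb * m ≤ 4 * L := by
        rw [hm]
        have := Nat.mul_div_le (2 * L + Tb - 1) Tb
        omega
      have hm3 : 1 ≤ m := by
        by_contra hc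
        have : m = 0 := by omega
        rw [this] at hm1
        omega
      have hm4 : m ≤ L := by nlinarith
      have hsum := hmer m L hm3 hm4
      have hsub : ∑ q ∈ S.below L with W q ∧ m ≤ S.bl q, (1 : ℝ) / S.N q ≤ Sg := by
        rw [hSg]
        refine Finset.sum_le_sum_of_subset_of_nonneg ?_ fun q _ _ => by positivity
        intro q hq
        rw [Finset.mem_filter] at hq ⊢
        obtain ⟨hq1, hq2, hq3⟩ := hq
        refine ⟨?_, hq2, hm1.trans (Nat.mul_le_mul_left _ hq3)⟩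
        unfold Sys.below at hq1
        rw [Finset.mem_filter] at hq1
        have hbl : S.bl q < L := hq1.2
        have hN : S.N q < 2 ^ (S.bl q + 1) := Nat.lt_pow_succ_log_self (by norm_num) _
        have hN2 : S.N q ≤ ⌊X⌋₊ := by
          refine le_trans hN.le (le_trans ?_ hL2)
          exact Nat.pow_le_pow_right (by norm_num) hbl
        unfold Sys.upto
        simpa using hN2
      have hlog : Real.log ((Tb : ℝ) / 4) ≤ Real.log ((L : ℝ) / m) := by
        refine Real.log_le_log (by positivity) ?_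
        have hm0 : (0 : ℝ) < m := by exact_mod_cast hm3
        rw [div_le_div_iff₀ (by norm_num) hm0]
        have : (Tb : ℝ) * m ≤ 4 * L := by exact_mod_cast hm2
        linarith
      have hk := mul_le_mul_of_nonneg_left hlog hκ.le
      have hS1 : κ * Real.log ((Tb : ℝ) / 4) - K₀ ≤ Sg := by linarith
      have hS2 : -((1 - 1 / Q) * Sg) ≤ K₀ + Real.log (4 / (Tb : ℝ)) * (κ / 2) := by
        have e1 : Real.log (4 / (Tb : ℝ)) = -Real.log ((Tb : ℝ) / 4) := by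
          rw [← Real.log_inv, inv_div]
        have e2 : 1 / 2 * Sg ≤ (1 - 1 / Q) * Sg :=
          mul_le_mul_of_nonneg_right (by linarith) hSg0
        rw [e1]
        nlinarith
      calc Real.exp (-((1 - 1 / Q) * Sg)) ≤ Real.exp (K₀ + Real.log (4 / (Tb : ℝ)) * (κ / 2)) :=
            Real.exp_le_exp.mpr hS2
        _ = Real.exp K₀ * (4 / (Tb : ℝ)) ^ (κ / 2) := by
            rw [Real.exp_add, Real.rpow_def_of_pos (by positivity)]
    · have h1 : Real.exp (-((1 - 1 / Q) * Sg)) ≤ 1 := by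
        rw [Real.exp_le_one_iff, neg_nonpos]
        exact mul_nonneg (by linarith) hSg0
      have h2 : 1 ≤ Real.exp K₀ := Real.one_le_exp hK₀
      have h3 : 1 ≤ (4 / (Tb : ℝ)) ^ (κ / 2) := by
        refine Real.one_le_rpow ?_ (by linarith)
        rw [le_div_iff₀ hTb0, one_mul]
        exact_mod_cast h4
      calc Real.exp (-((1 - 1 / Q) * Sg)) ≤ 1 * 1 := by rw [mul_one]; exact h1
        _ ≤ _ := mul_le_mul h2 h3 zero_le_one (by positivity)
  have hg : 0 ≤ g X := zero_le_one.trans (hS.g_one X)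
  have he : Real.exp 1 ≤ 3 := by
    have := Real.exp_one_lt_d9
    linarith
  have hK : (0 : ℝ) ≤ K := Nat.cast_nonneg _
  rw [← hQ]
  calc _ ≤ Real.exp 1 * Q ^ r * (K * (X * g X) * Real.exp (-((1 - 1 / Q) * Sg))) := hcount
    _ ≤ 3 * Q ^ r * (K * (X * g X) * (Real.exp K₀ * (4 / (Tb : ℝ)) ^ (κ / 2))) := by
        refine mul_le_mul (mul_le_mul_of_nonneg_right he (by positivity))
          (mul_le_mul_of_nonneg_left hexp (by positivity)) (by positivity) (by positivity)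
    _ = _ := by ring

end Pool.Agent.Helper46.TH
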