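import Pool.Agent.Helper42.TH.Goals1
import Pool.Agent.Helper46.TH.TEX2core

/-!
# Project TH, packet T_EX2: the `b` with fewer than `r` large primes of `W`
-/

set_option autoImplicit false

namespace Pool.Agent.Helper46.TH

theorem t_ex2 : Pool.Agent.Helper42.TH.T_EX2 := by
  intro p _ B B₀ k U Λ C _ _ _ _ _ _ _ _ S ψ g K hS W κ K₀ hκ hK₀ hmer F Tb r hF hTb
  exact t_ex2_core p B B₀ k U Λ C S ψ g K hS W κ K₀ hκ hK₀ hmer F Tb r hF hTb

end Pool.Agent.Helper46.TH
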